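import Mathlib

set_option autoImplicit false

namespace Pool.Agent.Results.MP_a62e4d_an.Counter

open Finset

variable {𝕜 X : Type} [RCLike 𝕜] [NormedAddCommGroup X] [NormedSpace 𝕜 X]

/-- `step A k j x = A (k+j-1) ... A k x`, the state at time `k + j` started from `x` at time `k`. -/
def step (A : ℕ → X →L[𝕜] X) (k : ℕ) : ℕ → X → X
  | 0 => fun x => x
  | j + 1 => fun x => A (k + j) (step A k j x)

/-- the evolution operator from time `k` to time `m`, for `k ≤ m`. -/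
def evol (A : ℕ → X →L[𝕜] X) (m k : ℕ) (x : X) : X := step A k (m - k) x

/-- uniform exponential stability. -/
def UES (A : ℕ → X →L[𝕜] X) : Prop :=
  ∃ N ν : ℝ, 1 ≤ N ∧ 0 < ν ∧ ∀ m k : ℕ, k ≤ m → ∀ x : X,
    ‖evol A m k x‖ ≤ N * Real.exp (-ν * ((m : ℝ) - k)) * ‖x‖

/-- condition (iii). -/
def Cond3 (A : ℕ → X →L[𝕜] X) : Prop :=
  ∃ B : ℝ, 1 ≤ B ∧ ∀ (m : ℕ) (x : X), ∑ k ∈ range (m + 1), ‖evol A m k x‖ ≤ B * ‖x‖

abbrev L1 (𝕜 : Type) [RCLike 𝕜] : Type := lp (fun _ : ℕ => 𝕜) 1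

noncomputable def e (n : ℕ) : L1 𝕜 := by classical exact lp.single 1 n (1 : 𝕜)

lemma norm_e (n : ℕ) : ‖(e n : L1 𝕜)‖ = 1 := by
  classical
  unfold e
  convert (lp.norm_single (E := fun _ : ℕ => 𝕜) (p := 1) (by simp) n (1 : 𝕜)).trans norm_one

lemma e_self (n : ℕ) : (e n : L1 𝕜) n = 1 := by
  classical
  unfold e
  convert lp.single_apply_self (E := fun _ : ℕ => 𝕜) 1 n (1 : 𝕜)

noncomputable def A0 (n : ℕ) : L1 𝕜 →L[𝕜] L1 𝕜 :=
  (lp.evalCLM 𝕜 (fun _ : ℕ => 𝕜) 1 n).smulRight (e (n + 1))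

lemma A0_apply (n : ℕ) (x : L1 𝕜) : A0 n x = x n • e (n + 1) := rfl

lemma step_A0 (k j : ℕ) (x : L1 𝕜) : step A0 k (j + 1) x = x k • e (k + j + 1) := by
  induction j with
  | zero => rfl
  | succ j ih =>
    change A0 (k + (j + 1)) (step A0 k (j + 1) x) = _
    rw [ih, map_smul, A0_apply, ← add_assoc, e_self, one_smul]

theorem result (𝕜 : Type) [RCLike 𝕜] : ¬ ∀ (X : Type) [NormedAddCommGroup X] [NormedSpace 𝕜 X]
    [CompleteSpace X] (A : ℕ → X →L[𝕜] X), Cond3 A → UES A := by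
  intro h
  obtain ⟨N, ν, hN, hν, hU⟩ := h (L1 𝕜) A0 ⟨2, by norm_num, fun m x => by
    rw [sum_range_succ]
    have h1 : ∀ k ∈ range m, ‖evol A0 m k x‖ = ‖x k‖ ^ (1 : ENNReal).toReal := by
      intro k hk
      rw [mem_range] at hk
      obtain ⟨j, hj⟩ : ∃ j, m - k = j + 1 := ⟨m - k - 1, by omega⟩
      rw [evol, hj, step_A0, norm_smul, norm_e]
      simp
    rw [sum_congr rfl h1]
    have h2 := lp.sum_rpow_le_norm_rpow (p := 1) (by simp) x (range m)
    have h3 : evol A0 m m x = x := by simp [evol, step]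
    rw [h3]
    simp only [ENNReal.toReal_one, Real.rpow_one] at h2 ⊢
    linarith⟩
  have h1 : ∀ j : ℕ, (1 : ℝ) ≤ N * Real.exp (-ν * ((j : ℝ) + 1)) := by
    intro j
    have := hU (j + 1) 0 (by omega) (e 0)
    rw [evol, Nat.sub_zero, step_A0, norm_smul, norm_e, norm_e, e_self] at this
    simpa using this
  have h2 : Filter.Tendsto (fun j : ℕ => N * Real.exp (-ν * ((j : ℝ) + 1))) Filter.atTop
      (nhds (N * 0)) := by
    refine Filter.Tendsto.const_mul _ (Real.tendsto_exp_atBot.comp ?_)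
    exact Filter.Tendsto.const_mul_atTop_of_neg (by linarith)
      (Filter.tendsto_atTop_add_const_right _ _ tendsto_natCast_atTop_atTop)
  have := ge_of_tendsto' h2 h1
  linarith

end Pool.Agent.Results.MP_a62e4d_an.Counter
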